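import Pool.Agent.TF.Stmts

/-! Squad TF: CNW and CNQ. -/

set_option autoImplicit false

namespace Pool.Agent.TF.H90

variable {G : Type} [AddCommGroup G] [Fintype G] [DecidableEq G] {n : ℕ}

/-- The line. -/
def line (F : Fam G n) (σ τ : Bool) (k j : Fin n) (x : G) : Finset G :=
  (F.D k ∩ F.D j).filter (fun v => F.lab σ k v = F.lab σ k x ∧ F.lab τ j v = F.lab τ j x)

lemma cnt_eq (F : Fam G n) (σ τ : Bool) (k j : Fin n) (x : G) :
    F.cnt σ τ k j x = (line F σ τ k j x).card := rfl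

lemma mem_line (F : Fam G n) (σ τ : Bool) (k j : Fin n) (x v : G) :
    v ∈ line F σ τ k j x ↔ v ∈ F.D k ∩ F.D j ∧ F.lab σ k v = F.lab σ k x ∧
      F.lab τ j v = F.lab τ j x := by
  unfold line
  exact Finset.mem_filter

lemma self_mem_line (F : Fam G n) (σ τ : Bool) (k j : Fin n) (x : G) (hx : x ∈ F.D k ∩ F.D j) :
    x ∈ line F σ τ k j x := by
  rw [mem_line]
  exact ⟨hx, rfl, rfl⟩

lemma cnt_pos (F : Fam G n) (σ τ : Bool) (k j : Fin n) (x : G) (hx : x ∈ F.D k ∩ F.D j) :
    0 < F.cnt σ τ k j x := by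
  rw [cnt_eq]
  exact Finset.card_pos.mpr ⟨x, self_mem_line F σ τ k j x hx⟩

lemma line_congr (F : Fam G n) (σ τ : Bool) (k j : Fin n) (x y : G)
    (h : y ∈ line F σ τ k j x) : line F σ τ k j y = line F σ τ k j x := by
  rw [mem_line] at h
  ext v
  rw [mem_line, mem_line, h.2.1, h.2.2]

/-- a point of `D k` is determined by its two labels -/
lemma eq_of_labs (F : Fam G n) (k : Fin n) (x y : G) (hx : x ∈ F.D k) (hy : y ∈ F.D k)
    (h1 : F.a k x = F.a k y) (h2 : F.b k x = F.b k y) : x = y := by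
  rw [← F.sub k x hx, ← F.sub k y hy, h1, h2]

lemma fibre_card (h : Al1Stmt) (F : Fam G n) (k j : Fin n) (t : Bool) (x : G)
    (hx : x ∈ F.D k ∩ F.D j) :
    ((F.D k ∩ F.D j).filter (fun v => F.w t k j v = F.w t k j x)).card
      ≤ F.cnt false t k j x * F.cnt true (!t) k j x := by
  obtain ⟨-, h2, h3, -⟩ := h G n F k j
  rw [cnt_eq, cnt_eq, ← Finset.card_product]
  refine Finset.card_le_card_of_injOn (fun z => (F.a k z - F.b k x, F.a k x - F.b k z)) ?_ ?_
  · intro z hz
    have hz' := (Finset.mem_filter.mp (Finset.mem_coe.mp hz))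
    obtain ⟨hzD, hzw⟩ := hz'
    refine Finset.mem_coe.mpr (Finset.mem_product.mpr ⟨?_, ?_⟩)
    · rw [mem_line]
      cases t with
      | true =>
        obtain ⟨e1, e2, e3, e4, e5⟩ := h2 z hzD x hx hzw
        exact ⟨e1, e3, e4⟩
      | false =>
        obtain ⟨e1, e2, e3, e4, e5⟩ := h3 z hzD x hx hzw
        exact ⟨e1, e3, e5⟩
    · rw [mem_line]
      cases t with
      | true =>
        obtain ⟨e1, e2, e3, e4, e5⟩ := h2 x hx z hzD hzw.symm
        exact ⟨e1, e2, e5⟩
      | false =>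
        obtain ⟨e1, e2, e3, e4, e5⟩ := h3 x hx z hzD hzw.symm
        exact ⟨e1, e2, e4⟩
  · intro z hz z' hz' hzz
    obtain ⟨hzD, hzw⟩ := (Finset.mem_filter.mp (Finset.mem_coe.mp hz))
    obtain ⟨hzD', hzw'⟩ := (Finset.mem_filter.mp (Finset.mem_coe.mp hz'))
    have e1 : F.a k z - F.b k x = F.a k z' - F.b k x := congrArg Prod.fst hzz
    have e2 : F.a k x - F.b k z = F.a k x - F.b k z' := congrArg Prod.snd hzz
    exact eq_of_labs F k z z' (Finset.mem_inter.mp hzD).1 (Finset.mem_inter.mp hzD').1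
      (sub_left_injective e1) (sub_right_injective e2)

/-- CNW. -/
theorem cnw (h : Al1Stmt) : CnwStmt := by
  intro G _ _ _ n F k j t
  have hmaps : ∀ x ∈ F.D k ∩ F.D j, F.w t k j x ∈ (F.D k ∩ F.D j).image (F.w t k j) :=
    fun x hx => Finset.mem_image_of_mem _ hx
  rw [← Finset.sum_fiberwise_of_maps_to hmaps]
  calc ∑ y ∈ (F.D k ∩ F.D j).image (F.w t k j),
        ∑ x ∈ (F.D k ∩ F.D j).filter (fun x => F.w t k j x = y),
          (1 : ℝ) / ((F.cnt false t k j x : ℝ) * (F.cnt true (!t) k j x : ℝ))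
      ≤ ∑ y ∈ (F.D k ∩ F.D j).image (F.w t k j), (1 : ℝ) := by
        refine Finset.sum_le_sum fun y hy => ?_
        set S := (F.D k ∩ F.D j).filter (fun x => F.w t k j x = y) with hS
        obtain ⟨x0, hx0, hx0y⟩ := Finset.mem_image.mp hy
        have hne : S.Nonempty := ⟨x0, Finset.mem_filter.mpr ⟨hx0, hx0y⟩⟩
        have hpos : (0 : ℝ) < S.card := by exact_mod_cast Finset.card_pos.mpr hne
        calc ∑ x ∈ S, (1 : ℝ) / ((F.cnt false t k j x : ℝ) * (F.cnt true (!t) k j x : ℝ))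
            ≤ ∑ x ∈ S, (1 : ℝ) / S.card := by
              refine Finset.sum_le_sum fun x hx => ?_
              obtain ⟨hxD, hxy⟩ := Finset.mem_filter.mp hx
              have hc := fibre_card h F k j t x hxD
              rw [hxy] at hc
              have hc' : (S.card : ℝ) ≤ (F.cnt false t k j x : ℝ) * (F.cnt true (!t) k j x : ℝ) := by
                exact_mod_cast hc
              exact one_div_le_one_div_of_le hpos hc'
          _ = 1 := by
              rw [Finset.sum_const, nsmul_eq_mul]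
              field_simp
    _ = _ := by simp

/-- symmetric double counting on lines -/
lemma sum_line_symm (F : Fam G n) (σ τ : Bool) (k j : Fin n) (f g : G → ℝ)
    (hf : ∀ x ∈ F.D k ∩ F.D j, ∀ y ∈ line F σ τ k j x, f y = f x) :
    ∑ x ∈ F.D k ∩ F.D j, (f x * (F.cnt σ τ k j x : ℝ)) * g x
      = ∑ x ∈ F.D k ∩ F.D j, f x * ∑ y ∈ line F σ τ k j x, g y := by
  have e1 : ∀ x ∈ F.D k ∩ F.D j, f x * ∑ y ∈ line F σ τ k j x, g y
      = ∑ y ∈ F.D k ∩ F.D j, if (F.lab σ k y = F.lab σ k x ∧ F.lab τ j y = F.lab τ j x)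
          then f x * g y else 0 := by
    intro x hx
    rw [line, Finset.sum_filter, Finset.mul_sum]
    refine Finset.sum_congr rfl fun y hy => ?_
    split_ifs
    · rfl
    · simp
  rw [Finset.sum_congr rfl e1, Finset.sum_comm]
  refine Finset.sum_congr rfl fun y hy => ?_
  have e2 : ∀ x ∈ F.D k ∩ F.D j,
      (if (F.lab σ k y = F.lab σ k x ∧ F.lab τ j y = F.lab τ j x) then f x * g y else 0)
      = (if (F.lab σ k x = F.lab σ k y ∧ F.lab τ j x = F.lab τ j y) then f y * g y else 0) := by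
    intro x hx
    by_cases hc : F.lab σ k y = F.lab σ k x ∧ F.lab τ j y = F.lab τ j x
    · rw [if_pos hc, if_pos ⟨hc.1.symm, hc.2.symm⟩]
      rw [hf x hx y ((mem_line F σ τ k j x y).mpr ⟨hy, hc⟩)]
    · rw [if_neg hc, if_neg (fun h => hc ⟨h.1.symm, h.2.symm⟩)]
  rw [Finset.sum_congr rfl e2, ← Finset.sum_filter, Finset.sum_const, nsmul_eq_mul, cnt_eq]
  unfold line
  ring

/-- the `(false,true)`-lines of the points of a `(false,false)`-line -/
lemma sum_cq (F : Fam G n) (k j : Fin n) (x : G) :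
    ∑ y ∈ line F false false k j x, (F.cnt false true k j y : ℝ)
      ≤ (((F.D k).image (F.lab true k)).card : ℝ) := by
  have hdisj : ∀ y ∈ line F false false k j x, ∀ y' ∈ line F false false k j x, y ≠ y' →
      Disjoint (line F false true k j y) (line F false true k j y') := by
    intro y hy y' hy' hne
    rw [Finset.disjoint_left]
    intro z hz hz'
    rw [mem_line] at hy hy' hz hz'
    apply hne
    exact eq_of_labs F j y y' (Finset.mem_inter.mp hy.1).2 (Finset.mem_inter.mp hy'.1).2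
      (hz.2.2.symm.trans hz'.2.2) (hy.2.2.trans hy'.2.2.symm)
  have e1 : ∑ y ∈ line F false false k j x, (F.cnt false true k j y : ℝ)
      = (((line F false false k j x).biUnion (fun y => line F false true k j y)).card : ℝ) := by
    rw [Finset.card_biUnion hdisj]
    push_cast
    rfl
  rw [e1]
  have : ((line F false false k j x).biUnion (fun y => line F false true k j y)).card
      ≤ ((F.D k).image (F.lab true k)).card := by
    refine Finset.card_le_card_of_injOn (F.lab true k) ?_ ?_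
    · intro z hz
      obtain ⟨y, hy, hz⟩ := Finset.mem_biUnion.mp (Finset.mem_coe.mp hz)
      rw [mem_line] at hz
      exact Finset.mem_coe.mpr (Finset.mem_image_of_mem _ (Finset.mem_inter.mp hz.1).1)
    · intro z hz z' hz' hzz
      obtain ⟨y, hy, hz⟩ := Finset.mem_biUnion.mp (Finset.mem_coe.mp hz)
      obtain ⟨y', hy', hz'⟩ := Finset.mem_biUnion.mp (Finset.mem_coe.mp hz')
      rw [mem_line] at hz hz' hy hy'
      exact eq_of_labs F k z z' (Finset.mem_inter.mp hz.1).1 (Finset.mem_inter.mp hz'.1).1 hzz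
        ((hz.2.1.trans hy.2.1).trans (hz'.2.1.trans hy'.2.1).symm)
  exact_mod_cast this

/-- the `(true,false)`-lines of the points of a `(false,false)`-line -/
lemma sum_cr (F : Fam G n) (k j : Fin n) (x : G) :
    ∑ y ∈ line F false false k j x, (F.cnt true false k j y : ℝ)
      ≤ (((F.D j).image (F.lab true j)).card : ℝ) := by
  have hdisj : ∀ y ∈ line F false false k j x, ∀ y' ∈ line F false false k j x, y ≠ y' →
      Disjoint (line F true false k j y) (line F true false k j y') := by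
    intro y hy y' hy' hne
    rw [Finset.disjoint_left]
    intro z hz hz'
    rw [mem_line] at hy hy' hz hz'
    apply hne
    exact eq_of_labs F k y y' (Finset.mem_inter.mp hy.1).1 (Finset.mem_inter.mp hy'.1).1
      (hz.2.1.symm.trans hz'.2.1) (hy.2.1.trans hy'.2.1.symm)
  have e1 : ∑ y ∈ line F false false k j x, (F.cnt true false k j y : ℝ)
      = (((line F false false k j x).biUnion (fun y => line F true false k j y)).card : ℝ) := by
    rw [Finset.card_biUnion hdisj]
    push_cast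
    rfl
  rw [e1]
  have : ((line F false false k j x).biUnion (fun y => line F true false k j y)).card
      ≤ ((F.D j).image (F.lab true j)).card := by
    refine Finset.card_le_card_of_injOn (F.lab true j) ?_ ?_
    · intro z hz
      obtain ⟨y, hy, hz⟩ := Finset.mem_biUnion.mp (Finset.mem_coe.mp hz)
      rw [mem_line] at hz
      exact Finset.mem_coe.mpr (Finset.mem_image_of_mem _ (Finset.mem_inter.mp hz.1).2)
    · intro z hz z' hz' hzz
      obtain ⟨y, hy, hz⟩ := Finset.mem_biUnion.mp (Finset.mem_coe.mp hz)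
      obtain ⟨y', hy', hz'⟩ := Finset.mem_biUnion.mp (Finset.mem_coe.mp hz')
      rw [mem_line] at hz hz' hy hy'
      exact eq_of_labs F j z z' (Finset.mem_inter.mp hz.1).2 (Finset.mem_inter.mp hz'.1).2 hzz
        ((hz.2.2.trans hy.2.2).trans (hz'.2.2.trans hy'.2.2).symm)
  exact_mod_cast this

lemma amgm3 (a b c m : ℝ) (ha : 0 ≤ a) (hb : 0 ≤ b) (hc : 0 ≤ c) (hm : a * b * c = m ^ 3) :
    3 * m ≤ a + b + c := by
  have h1 : (3 * m) ^ 3 ≤ (a + b + c) ^ 3 := by
    have e : (3 * m) ^ 3 = 27 * (a * b * c) := by rw [hm]; ring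
    rw [e]
    nlinarith [mul_nonneg ha (sq_nonneg (b - c)), mul_nonneg ha (sq_nonneg (a - c)),
      mul_nonneg ha (sq_nonneg (a - b)), mul_nonneg hb (sq_nonneg (b - c)),
      mul_nonneg hb (sq_nonneg (a - c)), mul_nonneg hb (sq_nonneg (a - b)),
      mul_nonneg hc (sq_nonneg (b - c)), mul_nonneg hc (sq_nonneg (a - c)),
      mul_nonneg hc (sq_nonneg (a - b))]
  exact le_of_pow_le_pow_left₀ (by norm_num) (by positivity) h1

/-- three term arithmetic-geometric inequality in the form used -/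
lemma amgm (p q r z : ℝ) (hp : 0 < p) (hq : 0 < q) (hr : 0 < r) (hz : 0 < z) (s : ℝ) (hs : 0 < s) :
    3 * (z ^ 2 * (p * s)) ≤ s * z ^ 3 * q + p * z ^ 3 * r + (p * s) ^ 2 * (1 / (q * r)) := by
  refine amgm3 _ _ _ _ (by positivity) (by positivity) (by positivity) ?_
  field_simp

/-- CNQ. -/
theorem cnq (hw : CnwStmt) : CnqStmt := by
  intro G _ _ _ n F k j
  rcases (F.D k ∩ F.D j).eq_empty_or_nonempty with he | ⟨x0, hx0⟩
  · rw [he]
    simp
  set α : ℝ := (((F.D k).image (F.lab true k)).card : ℝ) with hα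
  set β : ℝ := (((F.D j).image (F.lab true j)).card : ℝ) with hβ
  have hαpos : 0 < α := by
    have : 0 < ((F.D k).image (F.lab true k)).card :=
      Finset.card_pos.mpr ⟨_, Finset.mem_image_of_mem _ (Finset.mem_inter.mp hx0).1⟩
    exact Nat.cast_pos.mpr this
  have hβpos : 0 < β := by
    have : 0 < ((F.D j).image (F.lab true j)).card :=
      Finset.card_pos.mpr ⟨_, Finset.mem_image_of_mem _ (Finset.mem_inter.mp hx0).2⟩
    exact Nat.cast_pos.mpr this
  have hW := hw G n F k j true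
  set Z : G → ℝ := fun x => (F.cnt false false k j x : ℝ) with hZ
  have hZc : ∀ x ∈ F.D k ∩ F.D j, ∀ y ∈ line F false false k j x, Z y ^ 2 = Z x ^ 2 := by
    intro x hx y hy
    simp only [hZ, cnt_eq, line_congr F false false k j x y hy]
  have s1 := sum_line_symm F false false k j (fun x => Z x ^ 2)
    (fun x => (F.cnt false true k j x : ℝ)) hZc
  have s2 := sum_line_symm F false false k j (fun x => Z x ^ 2)
    (fun x => (F.cnt true false k j x : ℝ)) hZc
  have t1 : ∑ x ∈ F.D k ∩ F.D j, (Z x ^ 2 * (F.cnt false false k j x : ℝ)) * (F.cnt false true k j x : ℝ)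
      ≤ ∑ x ∈ F.D k ∩ F.D j, Z x ^ 2 * α := by
    rw [s1]
    exact Finset.sum_le_sum fun x hx => mul_le_mul_of_nonneg_left (sum_cq F k j x) (sq_nonneg _)
  have t2 : ∑ x ∈ F.D k ∩ F.D j, (Z x ^ 2 * (F.cnt false false k j x : ℝ)) * (F.cnt true false k j x : ℝ)
      ≤ ∑ x ∈ F.D k ∩ F.D j, Z x ^ 2 * β := by
    rw [s2]
    exact Finset.sum_le_sum fun x hx => mul_le_mul_of_nonneg_left (sum_cr F k j x) (sq_nonneg _)
  have key : ∑ x ∈ F.D k ∩ F.D j, 3 * (Z x ^ 2 * (α * β))
      ≤ ∑ x ∈ F.D k ∩ F.D j, (β * Z x ^ 3 * (F.cnt false true k j x : ℝ)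
        + α * Z x ^ 3 * (F.cnt true false k j x : ℝ)
        + (α * β) ^ 2 * (1 / ((F.cnt false true k j x : ℝ) * (F.cnt true false k j x : ℝ)))) := by
    refine Finset.sum_le_sum fun x hx => ?_
    refine amgm α _ _ (Z x) hαpos ?_ ?_ ?_ β hβpos
    · exact Nat.cast_pos.mpr (cnt_pos F false true k j x hx)
    · exact Nat.cast_pos.mpr (cnt_pos F true false k j x hx)
    · exact Nat.cast_pos.mpr (cnt_pos F false false k j x hx)
  rw [Finset.sum_add_distrib, Finset.sum_add_distrib] at key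
  have a1 : ∑ x ∈ F.D k ∩ F.D j, β * Z x ^ 3 * (F.cnt false true k j x : ℝ)
      = β * ∑ x ∈ F.D k ∩ F.D j, (Z x ^ 2 * (F.cnt false false k j x : ℝ)) * (F.cnt false true k j x : ℝ) := by
    rw [Finset.mul_sum]
    refine Finset.sum_congr rfl fun x _ => ?_
    simp only [hZ]
    ring
  have a2 : ∑ x ∈ F.D k ∩ F.D j, α * Z x ^ 3 * (F.cnt true false k j x : ℝ)
      = α * ∑ x ∈ F.D k ∩ F.D j, (Z x ^ 2 * (F.cnt false false k j x : ℝ)) * (F.cnt true false k j x : ℝ) := by
    rw [Finset.mul_sum]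
    refine Finset.sum_congr rfl fun x _ => ?_
    simp only [hZ]
    ring
  have a3 : ∑ x ∈ F.D k ∩ F.D j, (α * β) ^ 2 * (1 / ((F.cnt false true k j x : ℝ) * (F.cnt true false k j x : ℝ)))
      ≤ (α * β) ^ 2 * (((F.D k ∩ F.D j).image (F.w true k j)).card : ℝ) := by
    rw [← Finset.mul_sum]
    exact mul_le_mul_of_nonneg_left hW (sq_nonneg _)
  rw [a1, a2, ← Finset.mul_sum, ← Finset.sum_mul] at key
  rw [← Finset.sum_mul] at t1 t2
  set S : ℝ := ∑ x ∈ F.D k ∩ F.D j, Z x ^ 2 with hS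
  have b1 := mul_le_mul_of_nonneg_left t1 hβpos.le
  have b2 := mul_le_mul_of_nonneg_left t2 hαpos.le
  have hfin : (α * β) * S ≤ (α * β) * (α * β * (((F.D k ∩ F.D j).image (F.w true k j)).card : ℝ)) := by
    nlinarith [key, a3, b1, b2]
  exact le_of_mul_le_mul_left hfin (mul_pos hαpos hβpos)

end Pool.Agent.TF.H90
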